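import Pool.Agent.H71.EQ.Targets

/-!
Row LIM of the board eqr: the limit.
-/

set_option autoImplicit false

open Pool.Agent.H38.AE.Statement Pool.Agent.H38.AT MeasureTheory Filter Pool.Agent.H71.EQ
open scoped Topology

namespace Pool.Agent.H12.EQ

theorem sum_bound {ι : Type} (f : ι → ℝ) (B : ℝ) (hB : ∀ y, |f y| ≤ B) (D : Set ι)
    (hD : D.Finite) : |∑ᶠ x ∈ D, f x| ≤ B * (D.ncard : ℝ) := by
  rw [finsum_mem_eq_finite_toFinset_sum f hD, Set.ncard_eq_toFinset_card D hD]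
  refine (Finset.abs_sum_le_sum_abs _ _).trans ?_
  refine (Finset.sum_le_card_nsmul _ _ B fun x _ => hB x).trans (le_of_eq ?_)
  rw [nsmul_eq_mul, mul_comm]

theorem sum_split {ι : Type} (f : ι → ℝ) (B : ℝ) (hB : ∀ y, |f y| ≤ B) (T : Set ι)
    (hT : T.Finite) (Y : ℕ) (S : ℕ → Set ι) (hS : ∀ E ∈ Finset.Icc 1 Y, S E ⊆ T)
    (hd : ∀ E E', E ≠ E' → Disjoint (S E) (S E')) :
    |∑ᶠ x ∈ T, f x - ∑ E ∈ Finset.Icc 1 Y, ∑ᶠ x ∈ S E, f x| ≤
      B * ((T \ ⋃ E ∈ Finset.Icc 1 Y, S E).ncard : ℝ) := by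
  have hU : (⋃ E ∈ Finset.Icc 1 Y, S E) ⊆ T := Set.iUnion₂_subset hS
  have h1 := finsum_mem_add_sdiff (f := f) hU hT
  have h2 : ∑ᶠ x ∈ ⋃ E ∈ Finset.Icc 1 Y, S E, f x = ∑ E ∈ Finset.Icc 1 Y, ∑ᶠ x ∈ S E, f x := by
    have h3 := finsum_mem_biUnion (f := f) (t := S) (I := (↑(Finset.Icc 1 Y) : Set ℕ))
      (fun E _ E' _ h => hd E E' h) (Finset.finite_toSet _)
      (fun E hE => hT.subset (hS E (by simpa using hE)))
    rw [finsum_mem_coe_finset] at h3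
    simpa using h3
  rw [← h1, h2, add_sub_cancel_left]
  exact sum_bound f B hB _ (hT.subset Set.sdiff_subset)

theorem pf_LIM (h1 : T_FEL) (h2 : T_LHS) (h3 : T_RHS) : T_LIM := by
  intro k ε hk hε hε1
  obtain ⟨ρ, hρ, hfin, hL⟩ := h2 k ε hk hε hε1
  refine ⟨ρ, hρ, hfin, ?_⟩
  intro f hf ⟨B, hB⟩
  have hB0 : 0 ≤ B := (abs_nonneg _).trans (hB 0)
  rw [Metric.tendsto_nhds]
  intro e he
  set η : ℝ := e / (B + 3) with hη
  have hη0 : 0 < η := by positivity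
  have hηe : (B + 3) * η = e := by
    rw [hη]; field_simp
  obtain ⟨Y1, hY1⟩ := hL η hη0
  obtain ⟨Y2, hY2⟩ := h3 k hk f hf ⟨B, hB⟩ η hη0
  obtain ⟨κ1, lam1, a1, a2, a3, a4⟩ := hY1 (max Y1 Y2) (le_max_left _ _)
  obtain ⟨κ2, lam2, b1, b2, b3, b4⟩ := hY2 (max Y1 Y2) (le_max_right _ _)
  set Y := max Y1 Y2 with hY
  set κ := min κ1 κ2 with hκ
  set lam := max lam1 lam2 with hlam
  have k0 : 0 < κ := lt_min a1 b1
  have k1 : κ < 1 := (min_le_left _ _).trans_lt a2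
  have l1 : 1 ≤ lam := a3.trans (le_max_left _ _)
  have c1 := a4 κ lam k0 (min_le_left _ _) (le_max_left _ _)
  have c2 := b4 κ lam k0 (min_le_right _ _) (le_max_right _ _)
  have c3 : Tendsto (fun X : ℝ => ∑ E ∈ Finset.Icc 1 Y,
      X ^ (-(1 - nu k)) * ∑ᶠ x ∈ SF k E κ lam X, f (nrm x)) atTop
      (𝓝 (∑ E ∈ Finset.Icc 1 Y, wt (k + 1) E * (E : ℝ) ^ (1 - nu k) *
        (∫ z in Reg k E κ lam, f (arg E z)))) :=
    tendsto_finsetSum _ fun E hE =>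
      (h1 k E κ lam hk (Finset.mem_Icc.1 hE).1 k0 k1 l1 f hf ⟨B, hB⟩).2
  rw [Metric.tendsto_nhds] at c3
  filter_upwards [c1, c3 η hη0, eventually_ge_atTop (3 : ℝ)] with X d1 d2 d3
  obtain ⟨d4, d5⟩ := d1
  have hX : 0 < X := by linarith
  have hp : 0 < X ^ (-(1 - nu k)) := Real.rpow_pos_of_pos hX _
  have hdis : ∀ E E', E ≠ E' → Disjoint (SF k E κ lam X) (SF k E' κ lam X) := by
    intro E E' hne
    rw [Set.disjoint_left]
    intro x hx hx'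
    exact hne (hx.2.1.symm.trans hx'.2.1)
  have e1 := sum_split (fun x : Fin (k + 1) → ℤ => f (nrm x)) B (fun x => hB _)
    (Tuples k ε ρ X) (hfin X d3) Y (fun E => SF k E κ lam X) d4 hdis
  have e2 : |X ^ (-(1 - nu k)) * ∑ᶠ x ∈ Tuples k ε ρ X, f (nrm x) -
      ∑ E ∈ Finset.Icc 1 Y, X ^ (-(1 - nu k)) * ∑ᶠ x ∈ SF k E κ lam X, f (nrm x)| ≤
      B * η := by
    rw [← Finset.mul_sum, ← mul_sub, abs_mul, abs_of_pos hp]
    refine (mul_le_mul_of_nonneg_left (e1.trans (mul_le_mul_of_nonneg_left d5 hB0))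
      hp.le).trans (le_of_eq ?_)
    have : X ^ (-(1 - nu k)) * X ^ (1 - nu k) = 1 := by
      rw [← Real.rpow_add hX, neg_add_cancel, Real.rpow_zero]
    calc X ^ (-(1 - nu k)) * (B * (η * X ^ (1 - nu k)))
        = B * η * (X ^ (-(1 - nu k)) * X ^ (1 - nu k)) := by ring
      _ = B * η := by rw [this, mul_one]
  rw [Real.dist_eq] at d2 ⊢
  rw [abs_le] at e2 c2
  rw [abs_lt] at d2 ⊢
  constructor <;> nlinarith [e2.1, e2.2, c2.1, c2.2, d2.1, d2.2]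

end Pool.Agent.H12.EQ
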